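import Mathlib

/-!
# Project RB (S19361, MP_63e314_pr): the BKR inequality on `[0,1]^ℕ` with arbitrary witness sets
-/

set_option autoImplicit false

open MeasureTheory Set
open scoped ENNReal

namespace Pool.Agent.W844.RB

/-- disjoint occurrence -/
def bx {ι S : Type} (A B : Set (ι → S)) : Set (ι → S) :=
  {ω | ∃ J K : Set ι, Disjoint J K ∧
    (∀ η : ι → S, (∀ i ∈ J, η i = ω i) → η ∈ A) ∧ (∀ η : ι → S, (∀ i ∈ K, η i = ω i) → η ∈ B)}

/-- Reimer's butterfly theorem -/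
def S_BUT : Prop := ∀ (ι : Type) [Fintype ι] [DecidableEq ι] (X : Set (ι → Bool))
  (f : (ι → Bool) → Set ι),
  Nat.card X ≤ Nat.card {z : ι → Bool | (∃ x ∈ X, ∀ i ∈ f x, z i = x i) ∧
    (∃ x ∈ X, ∀ i, i ∉ f x → z i = !(x i))}

/-- BKR on the cube -/
def S_BKR2 : Prop := ∀ (ι : Type) [Fintype ι] [DecidableEq ι] (A B : Set (ι → Bool)),
  Nat.card (bx A B) * 2 ^ Fintype.card ι ≤ Nat.card A * Nat.card B

/-- BKR for `2^k` letters, uniform measure -/
def S_BKR : Prop := ∀ (n k : ℕ) (A B : Set (Fin n → Fin (2 ^ k))),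
  Nat.card (bx A B) * (2 ^ k) ^ n ≤ Nat.card A * Nat.card B

/-- BKR for open sets of `[0,1]^ℕ`, arbitrary witness sets -/
def S_OPEN : Prop := ∀ U V : Set (ℕ → unitInterval), IsOpen U → IsOpen V →
  ∃ C : Set (ℕ → unitInterval), MeasurableSet C ∧ bx U V ⊆ C ∧
    Measure.infinitePi (fun _ : ℕ => (volume : Measure unitInterval)) C ≤
      Measure.infinitePi (fun _ : ℕ => (volume : Measure unitInterval)) U *
      Measure.infinitePi (fun _ : ℕ => (volume : Measure unitInterval)) V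

end Pool.Agent.W844.RB
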